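import Pool.Agent.N830.HC.K.Uncross
import Pool.Agent.H204R3.CM.Coef

/-!
# All Hodge classes on abelian varieties of CM type with fields contained in `L`

(Compare `Pool.Agent.W547.KB`; here only the Weil classes of one field `L` and one embedding are used.)
-/

set_option linter.unusedSectionVars false
set_option linter.unusedVariables false

namespace Pool.Agent.N830.HC.K

open NumberField Pool.Agent.H204R3.CM Equiv Module Pool.Agent.W547.KB

noncomputable section

/-- Embeddings into `ℂ` factor through a Galois field. -/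
theorem exists_factor {L : Type} [Field L] [NumberField L] [IsCMField L] [IsGalois ℚ L]
    (j : L →+* ℂ) {E : Type} [Field E] [NumberField E] (ε : E →+* L) (ψ : E →+* ℂ) :
    ∃ φ : E →+* L, j.comp φ = ψ := by
  let _ := ε.toAlgebra
  let _ := ψ.toAlgebra
  have hfd : FiniteDimensional E L := Module.Finite.of_restrictScalars_finite ℚ E L
  let Ψ : L →ₐ[E] ℂ := IsAlgClosed.lift
  obtain ⟨σ, hσ⟩ := comp_surjective j (Ψ : L →+* ℂ)
  refine ⟨(σ : L →+* L).comp ε, ?_⟩
  ext x
  have h1 := RingHom.congr_fun hσ (ε x)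
  have h2 : Ψ (ε x) = ψ x := Ψ.commutes x
  exact h1.trans h2

/-- All Hodge classes on abelian varieties of CM type with fields contained in `L`. -/
theorem gen_of_hodge (B : CMPair) {L : Type} [Field L] [NumberField L] [IsCMField L]
    [IsGalois ℚ L] {j j' : L →+* ℂ} (hj' : j' ≠ ComplexEmbedding.conjugate j) (ι : B.E →+* L) (X : CMAV)
    (hX : ∀ i, Nonempty ((X.factor i).E →+* L)) {κ : Type} [Finite κ] (f : X.H1 [⋀^κ]→ₗ[ℚ] ℚ)
    (hf : IsHodge X.per f) : GenL B j j' X κ f := by
  classical
  have := Fintype.ofFinite κ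
  rcases isEmpty_or_nonempty κ with hκ | ⟨⟨k0⟩⟩
  · exact GenL.unit f
  rcases isEmpty_or_nonempty X.I with hI | hI
  · have h1 : f = 0 := by
      ext v
      have h2 : v k0 = 0 := by
        funext i
        exact (hI.false i).elim
      rw [f.map_coord_zero k0 h2]
      rfl
    rw [h1]
    exact GenL.zero X κ
  have hj : ∀ i, ∀ ψ : (X.factor i).E →+* ℂ, ∃ φ : (X.factor i).E →+* L, j.comp φ = ψ :=
    fun i ψ => exists_factor j (hX i).some ψ
  apply gen_of_LSp (L := L)
  obtain ⟨c, hc⟩ := form_coeff (E := fun i : X.I => (X.factor i).E) (fun i : X.I => i) j hj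
    f.toMultilinearMap
  have hmono : ∀ I : κ → Wt X L, c I ≠ 0 → mono I ∈ LSp B j j' X κ := by
    intro I hI
    have h1 : Balanced (fun k => St j (I k)) := by
      intro σ
      have h2 := balanced_of_hodge (E := fun i : X.I => (X.factor i).E)
        (Φ := fun i : X.I => (X.factor i).Φ) (fun i : X.I => i) j
        (fun i => (X.factor i).isCMType) hj f hf c hc I hI σ
      exact h2
    exact alg_of_balanced hj' ι _ κ rfl (fun k => St j (I k)) (fun k => isHalf_St j (I k)) h1 X I
      (fun k => rfl)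
  have hsum : ((Fintype.card (Perm κ) : ℕ) : L) • (fun v : κ → X.H1 => ((f v : ℚ) : L)) =
      ∑ I : κ → Wt X L, c I • mono I := by
    funext v
    rw [Finset.sum_apply, Pi.smul_apply, smul_eq_mul]
    have h1 : ∀ σ : Perm κ, ((f v : ℚ) : L) = ((Perm.sign σ : ℤ) : L) *
        ∑ I : κ → Wt X L, c I * ∏ k, ev (v (σ k)) (I k) := by
      intro σ
      have h2 : ((f (fun k => v (σ k)) : ℚ) : L) =
          ∑ I : κ → Wt X L, c I * ∏ k, ev (v (σ k)) (I k) := hc (fun k => v (σ k))
      rw [← h2]
      have h3 : f (fun k => v (σ k)) = Perm.sign σ • f v := f.map_perm v σ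
      rw [h3, Units.smul_def, zsmul_eq_mul, Rat.cast_mul, Rat.cast_intCast, ← mul_assoc,
        ← Int.cast_mul, ← Units.val_mul, Int.units_mul_self, Units.val_one, Int.cast_one, one_mul]
    have h4 : ((Fintype.card (Perm κ) : ℕ) : L) * ((f v : ℚ) : L) =
        ∑ σ : Perm κ, ((Perm.sign σ : ℤ) : L) *
          ∑ I : κ → Wt X L, c I * ∏ k, ev (v (σ k)) (I k) := by
      rw [← Finset.sum_congr rfl (fun σ _ => h1 σ), Finset.sum_const, Finset.card_univ,
        nsmul_eq_mul]
    rw [h4]
    simp only [Finset.mul_sum]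
    rw [Finset.sum_comm]
    refine Finset.sum_congr rfl fun I _ => ?_
    rw [Pi.smul_apply, smul_eq_mul, mono_apply, Finset.mul_sum]
    refine Finset.sum_congr rfl fun σ _ => ?_
    ring
  have h5 : ((Fintype.card (Perm κ) : ℕ) : L) • (fun v : κ → X.H1 => ((f v : ℚ) : L)) ∈
      LSp B j j' X κ := by
    rw [hsum]
    refine Submodule.sum_mem _ fun I _ => ?_
    by_cases hI : c I = 0
    · rw [hI, zero_smul]
      exact Submodule.zero_mem _
    · exact Submodule.smul_mem _ _ (hmono I hI)
  have hne : ((Fintype.card (Perm κ) : ℕ) : L) ≠ 0 := Nat.cast_ne_zero.2 Fintype.card_ne_zero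
  have h6 := Submodule.smul_mem _ (((Fintype.card (Perm κ) : ℕ) : L))⁻¹ h5
  rwa [smul_smul, inv_mul_cancel₀ hne, one_smul] at h6

end

end Pool.Agent.N830.HC.K
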