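import Pool.Agent.N830.HC.K.Span

/-!
# Abelian varieties with given weights, and the cancellation of pairs

(Compare `Pool.Agent.W547.KB`; here only the Weil classes of one field `L` and one embedding are used.)
-/

set_option linter.unusedSectionVars false
set_option linter.unusedVariables false

namespace Pool.Agent.N830.HC.K

open NumberField Pool.Agent.H204R3.CM Equiv Module Pool.Agent.W547.KB

noncomputable section

variable {B : CMPair} {L : Type} [Field L] [NumberField L] [IsCMField L] [IsGalois ℚ L]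
  {j' : L →+* ℂ} {X : CMAV} {κ κ' : Type} [Fintype κ] [DecidableEq κ] [Fintype κ'] [DecidableEq κ']

theorem mono_mem_of_trForm {j : L →+* ℂ} (I : κ → Wt X L) (h : ∀ α : L, GenL B j j' X κ (trForm α I)) :
    mono I ∈ LSp B j j' X κ := by
  obtain ⟨n, a, b, hab⟩ := exists_dual L
  have h1 : mono I = ∑ i, b i • (fun v : κ → X.H1 => ((trForm (a i) I v : ℚ) : L)) := by
    funext v
    rw [Finset.sum_apply]
    exact hab (mono I v)
  rw [h1]
  exact Submodule.sum_mem _ fun i _ => Submodule.smul_mem _ _ (LSp.of_gen (h (a i)))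

/-- All monomials with the given types are in the span of the generated classes. -/
def Alg (B : CMPair) (j j' : L →+* ℂ) (s : κ → Set (L ≃ₐ[ℚ] L)) : Prop :=
  ∀ (X : CMAV) (I : κ → Wt X L), (∀ k, St j (I k) = s k) → mono I ∈ LSp B j j' X κ

theorem alg_of_can (j : L →+* ℂ) (s : κ → Set (L ≃ₐ[ℚ] L)) (hs : ∀ k, IsHalf (s k))
    (h : mono (canI j s hs) ∈ LSp B j j' (can j s hs) κ) : Alg B j j' s := by
  intro X I hI
  let hh : X.H1 →ₗ[ℚ] (can j s hs).H1 := LinearMap.pi (fun k => evLin (I k))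
  have hmem : ∀ (k : κ) (ψ : L →+* ℂ), ψ ∈ typeOf j (s k) →
      ψ.comp (I k).2 ∈ (X.factor (I k).1).Φ := by
    rintro k ψ ⟨σ, hσ, rfl⟩
    rw [← hI k] at hσ
    exact hσ
  let H : X.Tan →ₗ[ℂ] (can j s hs).Tan :=
    LinearMap.pi fun k => LinearMap.pi fun ψ =>
      (LinearMap.proj (⟨ψ.1.comp (I k).2, hmem k ψ.1 ψ.2⟩ : (X.factor (I k).1).Φ)).comp
        (LinearMap.proj (R := ℂ) (φ := fun i => (X.factor i).Φ → ℂ) (I k).1)
  have hom : IsHom X (can j s hs) hh := ⟨H, fun w => rfl⟩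
  have h1 := LSp.pull hom h
  rwa [mono_pull hh I (canI j s hs) (fun w k => rfl)] at h1

theorem alg_reindex {j : L →+* ℂ} (e : κ ≃ κ') {s : κ → Set (L ≃ₐ[ℚ] L)}
    {s' : κ' → Set (L ≃ₐ[ℚ] L)} (hs : Alg B j j' s) (h : ∀ k, s' (e k) = s k) : Alg B j j' s' := by
  intro X I hI
  have h1 := hs X (fun k => I (e k)) (fun k => by rw [hI, h])
  have h2 := LSp.reindex e h1
  rw [mono_reindex] at h2
  simpa using h2

theorem alg_sum {j : L →+* ℂ} {s : κ → Set (L ≃ₐ[ℚ] L)} {s' : κ' → Set (L ≃ₐ[ℚ] L)}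
    (hs : Alg B j j' s) (hs' : Alg B j j' s') : Alg B j j' (Sum.elim s s') := by
  intro X I hI
  have h1 := hs X (fun k => I (Sum.inl k)) (fun k => hI (Sum.inl k))
  have h2 := hs' X (fun k => I (Sum.inr k)) (fun k => hI (Sum.inr k))
  have h3 := LSp.cup h1 h2
  rw [mono_cup] at h3
  have h4 : (Fintype.card (Perm κ) : L) * (Fintype.card (Perm κ') : L) ≠ 0 := by
    rw [← Nat.cast_mul]
    exact Nat.cast_ne_zero.2 (Nat.mul_ne_zero Fintype.card_ne_zero Fintype.card_ne_zero)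
  have h5 := Submodule.smul_mem _ (((Fintype.card (Perm κ) : L) * (Fintype.card (Perm κ') : L))⁻¹) h3
  rw [smul_smul, inv_mul_cancel₀ h4, one_smul] at h5
  have h6 : Sum.elim (fun k => I (Sum.inl k)) (fun k => I (Sum.inr k)) = I := by
    funext s
    cases s <;> rfl
  rwa [h6] at h5

theorem alg_empty [IsEmpty κ] (j : L →+* ℂ) (s : κ → Set (L ≃ₐ[ℚ] L)) : Alg B j j' s :=
  fun X I hI => LSp.unit _

theorem alg_two (j : L →+* ℂ) (hκ : Nat.card κ = 2) {s : κ → Set (L ≃ₐ[ℚ] L)}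
    (hs : Balanced s) : Alg B j j' s := by
  intro X I hI
  have h1 : (fun k => St j (I k)) = s := funext hI
  refine mono_mem_of_trForm I fun α => GenL.divisor hκ _ ?_
  exact isHodge_trForm j I (by rw [h1]; exact hs) α

theorem alg_pair (j : L →+* ℂ) (S : Set (L ≃ₐ[ℚ] L)) : Alg B j j' ![S, Sᶜ] := by
  refine alg_two j (by simp) fun σ => ?_
  by_cases h : σ ∈ S <;> simp [Fin.sum_univ_two, h]

theorem alg_split {j : L →+* ℂ} {s : κ → Set (L ≃ₐ[ℚ] L)} (a b : κ) (hab : a ≠ b)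
    (hs : s b = (s a)ᶜ) (h : Alg B j j' (fun x : {x : κ // x ≠ a ∧ x ≠ b} => s x.1)) : Alg B j j' s := by
  refine alg_reindex (splitTwo a b hab) (alg_sum h (alg_pair j (s a))) ?_
  rintro (x | x)
  · rfl
  · fin_cases x
    · rfl
    · exact hs

/-- Unions of pairs. -/
theorem alg_pairs (j : L →+* ℂ) (n : ℕ) : ∀ (κ : Type) [Fintype κ] [DecidableEq κ],
    Fintype.card κ = n → ∀ (s : κ → Set (L ≃ₐ[ℚ] L)) (inv : κ → κ), (∀ k, inv (inv k) = k) →
    (∀ k, inv k ≠ k) → (∀ k, s (inv k) = (s k)ᶜ) → Alg B j j' s := by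
  induction n using Nat.strong_induction_on with
  | _ n ih =>
    intro κ _ _ hn s inv hinv hne hs
    rcases isEmpty_or_nonempty κ with h | ⟨⟨a⟩⟩
    · exact alg_empty j s
    · have hab : a ≠ inv a := (hne a).symm
      have hcard := card_split a (inv a) hab
      refine alg_split a (inv a) hab (hs a) ?_
      refine ih _ (by omega) {x : κ // x ≠ a ∧ x ≠ inv a} rfl _
        (fun x => ⟨inv x.1, fun h => x.2.2 (by rw [← hinv x.1, h]),
          fun h => x.2.1 (by rw [← hinv x.1, h, hinv])⟩) ?_ ?_ ?_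
      · intro x
        exact Subtype.ext (hinv x.1)
      · intro x h
        exact hne x.1 (congrArg Subtype.val h)
      · intro x
        exact hs x.1

theorem alg_cancel (j : L →+* ℂ) {s : κ → Set (L ≃ₐ[ℚ] L)} (hs : ∀ k, IsHalf (s k))
    {S : Set (L ≃ₐ[ℚ] L)} (hS : IsHalf S) (h : Alg B j j' (Sum.elim s ![S, Sᶜ])) : Alg B j j' s := by
  classical
  let q : (L ≃ₐ[ℚ] L) → Set (L ≃ₐ[ℚ] L) := fun σ => {τ | τ * σ ∈ S}
  have hq : ∀ σ, q (cc L * σ) = (q σ)ᶜ := by
    intro σ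
    ext τ
    have h1 : τ * (cc L * σ) = cc L * (τ * σ) := by
      rw [← mul_assoc, ← mul_assoc, cc_comm j]
    change τ * (cc L * σ) ∈ S ↔ ¬ (τ * σ ∈ S)
    rw [h1, hS (τ * σ), not_not]
  have hq1 : q 1 = S := by
    ext τ
    change τ * 1 ∈ S ↔ _
    rw [mul_one]
  have hqc : q (cc L) = Sᶜ := by
    rw [← hq1, ← hq 1, mul_one]
  have hne : (1 : L ≃ₐ[ℚ] L) ≠ cc L := fun h => cc_ne h.symm
  -- the other weights of the factor
  have h1 : Alg B j j' (fun σ : {σ : L ≃ₐ[ℚ] L // σ ≠ 1 ∧ σ ≠ cc L} => q σ.1) := by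
    refine alg_pairs j _ _ rfl _ (fun σ => ⟨cc L * σ.1, fun h => σ.2.2 ?_, fun h => σ.2.1 ?_⟩)
      ?_ ?_ ?_
    · exact mul_left_cancel (a := cc L) (h.trans cc_cc.symm)
    · exact mul_left_cancel (a := cc L) (by rw [h, mul_one])
    · intro σ
      refine Subtype.ext ?_
      change cc L * (cc L * σ.1) = σ.1
      rw [← mul_assoc, cc_cc, one_mul]
    · intro σ h
      have h2 : cc L * σ.1 = σ.1 := congrArg Subtype.val h
      exact cc_ne (mul_right_cancel (b := σ.1) (by rw [h2, one_mul]))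
    · intro σ
      exact hq σ.1
  have h2 : Alg B j j' (Sum.elim s q) := by
    refine alg_reindex (((Equiv.sumAssoc κ (Fin 2) _).trans (Equiv.sumCongr (Equiv.refl κ)
      ((Equiv.sumComm _ _).trans (splitTwo 1 (cc L) hne))))) (alg_sum h h1) ?_
    rintro ((k | k) | x)
    · rfl
    · fin_cases k
      · exact hq1
      · exact hqc
    · rfl
  -- the variety
  refine alg_of_can j s hs ?_
  let X : CMAV := can j s hs
  let Y : CMAV := ⟨Unit, fun _ => ⟨L, typeOf j S, isCMType_typeOf j hS⟩⟩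
  let I : κ ⊕ (L ≃ₐ[ℚ] L) → Wt (X.prod Y) L :=
    Sum.elim (fun k => ⟨Sum.inl k, RingHom.id L⟩) (fun σ => ⟨Sum.inr (), (σ : L →+* L)⟩)
  have hI : ∀ k, St j (I k) = Sum.elim s q k := by
    rintro (k | σ)
    · ext τ
      exact mem_typeOf j (s k) τ
    · ext τ
      exact mem_q j S τ σ
  have h3 := h2 (X.prod Y) I hI
  have hcard : Fintype.card (Fin (finrank ℚ L)) = Fintype.card (L ≃ₐ[ℚ] L) := by
    rw [Fintype.card_fin, ← Nat.card_eq_fintype_card, IsGalois.card_aut_eq_finrank]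
  let b0 : Basis (L ≃ₐ[ℚ] L) ℚ L := (Module.finBasis ℚ L).reindex (Fintype.equivOfCardEq hcard)
  let eY : L ≃ₗ[ℚ] Y.H1 := (LinearEquiv.funUnique Unit ℚ L).symm
  have h4 := LSp.push (b0.map eY) h3
  let D : L := Matrix.det (Matrix.of fun τ σ : L ≃ₐ[ℚ] L => σ (b0 τ))
  have hD : D ≠ 0 := det_conj_ne b0
  have h5 : (fun v : κ → X.H1 => mono I (Sum.elim (fun k => X.pair Y (v k) 0)
      (fun k => X.pair Y 0 ((b0.map eY) k)))) = D • mono (canI j s hs) := by
    funext v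
    rw [Pi.smul_apply, smul_eq_mul, mono_eq_det, mono_eq_det]
    have h6 : (Matrix.of fun k l => ev ((Sum.elim (fun k => X.pair Y (v k) 0)
      (fun k => X.pair Y 0 ((b0.map eY) k)) : κ ⊕ (L ≃ₐ[ℚ] L) → (X.prod Y).H1) k) (I l)) =
        Matrix.fromBlocks (Matrix.of fun k l => ev (v k) (canI j s hs l)) 0 0
          (Matrix.of fun τ σ : L ≃ₐ[ℚ] L => σ (b0 τ)) := by
      ext k l
      rcases k with k | τ <;> rcases l with l | σ
      · rfl
      · exact map_zero (σ : L →+* L)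
      · exact map_zero (RingHom.id L)
      · rfl
    rw [h6, Matrix.det_fromBlocks_zero₂₁, mul_comm]
  rw [h5] at h4
  have h7 := Submodule.smul_mem _ D⁻¹ h4
  rwa [smul_smul, inv_mul_cancel₀ hD, one_smul] at h7

end

end Pool.Agent.N830.HC.K
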