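import Pool.Agent.N830.HC.Quad

/-!
# The classes generated by divisors and by the Weil classes of one field
-/

namespace Pool.Agent.N830.HC.K

open NumberField Pool.Agent.H204R3.CM Pool.Agent.W547.KB

/-- Fix a CM type `B`, a Galois CM field `L` and embeddings `j`, `j'` of `L` into `ℂ`. The smallest
system of cohomology classes `f ∈ H^κ(X, ℚ)` of abelian varieties `X` of CM type which contains the
Hodge classes of degree two and the Weil classes of degree four on products of three abelian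
varieties with complex multiplication by `L` and of `B` described below, and which is stable under
linear combinations, cup products, pull-backs along homomorphisms and push-forwards along
projections `X × Y → X`. -/
inductive GenL (B : CMPair) {L : Type} [Field L] [NumberField L] [IsCMField L] [IsGalois ℚ L]
    (j j' : L →+* ℂ) : (X : CMAV) → (κ : Type) → (X.H1 [⋀^κ]→ₗ[ℚ] ℚ) → Prop
  /-- classes of degree zero -/
  | unit {X : CMAV} {κ : Type} [IsEmpty κ] (f : X.H1 [⋀^κ]→ₗ[ℚ] ℚ) : GenL B j j' X κ f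
  /-- Hodge classes of degree two -/
  | divisor {X : CMAV} {κ : Type} (hκ : Nat.card κ = 2) (f : X.H1 [⋀^κ]→ₗ[ℚ] ℚ)
      (hf : IsHodge X.per f) : GenL B j j' X κ f
  /-- the Weil classes `Tr (x₀ ∧ x₁ ∧ x₂ ∧ t)` of degree four -/
  | weil (ι : B.E →+* L) (Φ : Fin 3 → Set (L →+* ℂ)) (h : Quad B j j' ι Φ)
      (f : (threeB B L Φ h.type).H1 [⋀^Fin 4]→ₗ[ℚ] ℚ) (hf : IsWeilForm B L ι Φ h.type 1 f) :
      GenL B j j' (threeB B L Φ h.type) (Fin 4) f
  | zero (X : CMAV) (κ : Type) : GenL B j j' X κ 0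
  | add {X : CMAV} {κ : Type} (f g : X.H1 [⋀^κ]→ₗ[ℚ] ℚ) (hf : GenL B j j' X κ f)
      (hg : GenL B j j' X κ g) : GenL B j j' X κ (f + g)
  | smul {X : CMAV} {κ : Type} (a : ℚ) (f : X.H1 [⋀^κ]→ₗ[ℚ] ℚ) (hf : GenL B j j' X κ f) :
      GenL B j j' X κ (a • f)
  /-- renaming of the variables -/
  | reindex {X : CMAV} {κ κ' : Type} (e : κ ≃ κ') (f : X.H1 [⋀^κ]→ₗ[ℚ] ℚ)
      (hf : GenL B j j' X κ f) : GenL B j j' X κ' (f.domDomCongr e)
  /-- cup products (up to a factor) -/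
  | cup {X : CMAV} {κ κ' : Type} [Fintype κ] [DecidableEq κ] [Fintype κ'] [DecidableEq κ']
      (f : X.H1 [⋀^κ]→ₗ[ℚ] ℚ) (g : X.H1 [⋀^κ']→ₗ[ℚ] ℚ) (hf : GenL B j j' X κ f)
      (hg : GenL B j j' X κ' g) (h : X.H1 [⋀^κ ⊕ κ']→ₗ[ℚ] ℚ)
      (hh : ∀ v : κ ⊕ κ' → X.H1, h v = ∑ σ : Equiv.Perm (κ ⊕ κ'), ((Equiv.Perm.sign σ : ℤ) : ℚ) *
        (f (fun k => v (σ (Sum.inl k))) * g (fun k => v (σ (Sum.inr k))))) :
      GenL B j j' X (κ ⊕ κ') h
  /-- pull-back along a homomorphism -/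
  | pull {X Y : CMAV} {κ : Type} (h : X.H1 →ₗ[ℚ] Y.H1) (hh : IsHom X Y h)
      (f : Y.H1 [⋀^κ]→ₗ[ℚ] ℚ) (hf : GenL B j j' Y κ f) : GenL B j j' X κ (f.compLinearMap h)
  /-- push-forward (integration over the fibres) along the projection `X × Y → X`: insert a basis
  of `H_1(Y, ℚ)` -/
  | push {X Y : CMAV} {κ κ' : Type} (b : Module.Basis κ' ℚ Y.H1)
      (f : (X.prod Y).H1 [⋀^κ ⊕ κ']→ₗ[ℚ] ℚ) (hf : GenL B j j' (X.prod Y) (κ ⊕ κ') f)
      (g : X.H1 [⋀^κ]→ₗ[ℚ] ℚ)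
      (hg : ∀ v : κ → X.H1,
        g v = f (Sum.elim (fun k => X.pair Y (v k) 0) (fun k => X.pair Y 0 (b k)))) :
      GenL B j j' X κ g

end Pool.Agent.N830.HC.K
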