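import Pool.Agent.N830.HC.K.Canon

/-!
# The Weil classes on products of four abelian varieties

(Compare `Pool.Agent.W547.KB`; here only the Weil classes of one field `L` and one embedding are used.)
-/

set_option linter.unusedSectionVars false
set_option linter.unusedVariables false

namespace Pool.Agent.N830.HC.K

open NumberField Pool.Agent.H204R3.CM Equiv Module Pool.Agent.W547.KB

noncomputable section

variable {B : CMPair} {L : Type} [Field L] [NumberField L] [IsCMField L] [IsGalois ℚ L]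
  {j' : L →+* ℂ}

/-- The functions in the span are stable under the automorphisms of the field. -/
theorem LSp.aut {j : L →+* ℂ} {X : CMAV} {κ : Type} (σ : L ≃ₐ[ℚ] L) {F : (κ → X.H1) → L}
    (hF : F ∈ LSp B j j' X κ) : (fun v => σ (F v)) ∈ LSp B j j' X κ := by
  induction hF using Submodule.span_induction with
  | mem F hF =>
    obtain ⟨f, hf, rfl⟩ := hF
    have h1 : (fun v => σ (((f v : ℚ) : L))) = fun v => ((f v : ℚ) : L) := by
      funext v
      exact map_ratCast σ _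
    rw [h1]
    exact LSp.of_gen hf
  | zero =>
    have h1 : (fun v : κ → X.H1 => σ ((0 : (κ → X.H1) → L) v)) = 0 := by
      funext v
      exact map_zero σ
    rw [h1]
    exact Submodule.zero_mem _
  | add F G _ _ hF hG =>
    have h1 : (fun v : κ → X.H1 => σ ((F + G) v)) = (fun v => σ (F v)) + fun v => σ (G v) := by
      funext v
      exact map_add σ _ _
    rw [h1]
    exact Submodule.add_mem _ hF hG
  | smul c F _ hF =>
    have h1 : (fun v : κ → X.H1 => σ ((c • F) v)) = σ c • fun v => σ (F v) := by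
      funext v
      exact map_mul σ _ _
    rw [h1]
    exact Submodule.smul_mem _ _ hF

/-- Translates. -/
theorem alg_tr {j : L →+* ℂ} {κ : Type} [Fintype κ] [DecidableEq κ] {s : κ → Set (L ≃ₐ[ℚ] L)}
    (σ : L ≃ₐ[ℚ] L) (h : Alg B j j' (fun k => {τ | τ * σ ∈ s k})) : Alg B j j' s := by
  intro X I hI
  let I' : κ → Wt X L := fun k => ⟨(I k).1, σ • (I k).2⟩
  have h1 := h X I' (fun k => by
    beta_reduce
    rw [← hI k]
    ext τ
    exact Iff.rfl)
  have h2 := LSp.aut σ.symm h1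
  have h3 : (fun v => σ.symm (mono I' v)) = mono I := by
    funext v
    rw [AlgEquiv.symm_apply_eq, mono_apply, mono_apply, map_sum]
    refine Finset.sum_congr rfl fun τ _ => ?_
    rw [map_mul, map_intCast, map_prod]
    rfl
  rwa [h3] at h2

/-- Multiplication by elements of the fields. -/
def mulEnd (X : CMAV) (a : ∀ i, (X.factor i).E) : X.H1 →ₗ[ℚ] X.H1 where
  toFun w := fun i => a i * w i
  map_add' v w := by
    funext i
    exact mul_add _ _ _
  map_smul' c w := by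
    funext i
    exact mul_smul_comm c (a i) (w i)

theorem mulEnd_hom (X : CMAV) (a : ∀ i, (X.factor i).E) : IsHom X X (mulEnd X a) := by
  refine ⟨{ toFun := fun u => fun i φ => φ.1 (a i) * u i φ
            map_add' := fun u v => ?_
            map_smul' := fun c u => ?_ }, fun w => ?_⟩
  · funext i φ
    exact mul_add _ _ _
  · funext i φ
    exact mul_left_comm _ _ _
  · funext i φ
    exact (map_mul φ.1 _ _).symm

section base

variable (j : L →+* ℂ) (ι : B.E →+* L) (r : Fin 4 → Set (L ≃ₐ[ℚ] L)) (hr : ∀ k, IsHalf (r k))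

/-- The multiplication by `α` on the first factor. -/
def firstMul (α : L) : (yb (B := B) j r hr).H1 →ₗ[ℚ] (yb (B := B) j r hr).H1 :=
  mulEnd (yb (B := B) j r hr) fun s =>
    Sum.rec (motive := fun s => ((yb (B := B) j r hr).factor s).E)
      (fun i : Fin 3 => if i = 0 then (α : L) else (1 : L)) (fun _ => (1 : B.E)) s

theorem trForm_firstMul (α : L) : trForm α (ybI j ι r hr) =
    (trForm 1 (ybI j ι r hr)).compLinearMap (firstMul j r hr α) := by
  refine AlternatingMap.ext fun v => ?_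
  rw [AlternatingMap.compLinearMap_apply, trForm_apply, trForm_apply, one_mul, mono_eq_det,
    mono_eq_det]
  congr 1
  have h1 : (Matrix.of fun k l => ev ((firstMul j r hr α) (v k)) (ybI j ι r hr l)) =
      Matrix.of fun k l => (![α, 1, 1, 1] : Fin 4 → L) l *
        (Matrix.of fun k l => ev (v k) (ybI j ι r hr l)) k l := by
    ext k l
    fin_cases l
    · rfl
    · rfl
    · rfl
    · exact (map_mul ι 1 _).trans (by rw [map_one]; rfl)
  rw [h1, Matrix.det_mul_row]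
  simp [Fin.prod_univ_four]

theorem ybI_mem1 (h3 : r 3 = kap B j ι) (h01 : r 0 ∩ r 1 = {1}) (h23 : r 2 ∩ r 3 = {cc L})
    (σ' : L ≃ₐ[ℚ] L) (hj' : j' = j.comp (σ' : L →+* L)) (h0 : σ' ∈ r 0) (h02 : r 0 ≠ (r 2)ᶜ)
    (h12 : r 1 ≠ (r 2)ᶜ) :
    mono (ybI j ι r hr) ∈ LSp B j j' (yb (B := B) j r hr) (Fin 4) := by
  refine mono_mem_of_trForm _ fun α => ?_
  rw [trForm_firstMul]
  refine GenL.pull _ (mulEnd_hom _ _) _ ?_
  have e1 : j.comp ((1 : L ≃ₐ[ℚ] L) : L →+* L) = j := RingHom.ext fun x => rfl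
  have hc : ∀ S : Set (L ≃ₐ[ℚ] L), (typeOf j S)ᶜ = typeOf j Sᶜ := by
    intro S
    ext φ
    obtain ⟨σ, rfl⟩ := comp_surjective j φ
    change ¬ (j.comp (σ : L →+* L) ∈ typeOf j S) ↔ j.comp (σ : L →+* L) ∈ typeOf j Sᶜ
    rw [mem_typeOf, mem_typeOf]
    exact Iff.rfl
  have hinj : ∀ S T : Set (L ≃ₐ[ℚ] L), typeOf j S = typeOf j T → S = T := by
    intro S T hST
    ext σ
    rw [← mem_typeOf j S, ← mem_typeOf j T, hST]
  refine GenL.weil ι (fun i => typeOf j (r i.castSucc))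
    ⟨fun i => isCMType_typeOf j (hr _), ?_, ?_, ?_, ?_, ?_⟩ _ ?_
  · change typeOf j (r 0) ∩ typeOf j (r 1) = _
    rw [typeOf_inter, h01]
    unfold typeOf
    rw [Set.image_singleton, e1]
  · change typeOf j (r 2) ∩ _ = _
    rw [← typeOf_kap j ι, ← h3, typeOf_inter, h23]
    unfold typeOf
    rw [Set.image_singleton, ← mul_one (cc L), comp_cc, e1]
  · change j' ∈ typeOf j (r 0)
    rw [hj', mem_typeOf]
    exact h0
  · intro h4
    have h5 : typeOf j (r 0) = (typeOf j (r 2))ᶜ := h4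
    rw [hc] at h5
    exact h02 (hinj _ _ h5)
  · intro h4
    have h5 : typeOf j (r 1) = (typeOf j (r 2))ᶜ := h4
    rw [hc] at h5
    exact h12 (hinj _ _ h5)
  · intro x t
    rw [trForm_apply, mono_eq_det]
    congr 3

include hr in
theorem alg_weilB0 (h3 : r 3 = kap B j ι) (h01 : r 0 ∩ r 1 = {1})
    (h23 : r 2 ∩ r 3 = {cc L}) (σ' : L ≃ₐ[ℚ] L) (hj' : j' = j.comp (σ' : L →+* L))
    (h0' : σ' ∈ r 0) (h02 : r 0 ≠ (r 2)ᶜ) (h12 : r 1 ≠ (r 2)ᶜ) : Alg B j j' r := by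
  refine alg_of_can j r hr ?_
  obtain ⟨n, a, b, hab⟩ := exists_rdual ι
  have h0 := ybI_mem1 j ι r hr h3 h01 h23 σ' hj' h0' h02 h12
  have h1 : mono (canI j r hr) = ∑ i, b i • (fun v : Fin 4 → (can j r hr).H1 =>
      mono (ybI j ι r hr) (fun k => toYB j ι r hr (a i) (v k))) := by
    funext v
    rw [Finset.sum_apply]
    simp only [Pi.smul_apply, smul_eq_mul]
    rw [mono_apply]
    simp only [mono_apply, Finset.mul_sum]
    rw [Finset.sum_comm]
    refine Finset.sum_congr rfl fun τ _ => ?_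
    simp only [Fin.prod_univ_four]
    have h2 : ev (v (τ 3)) (canI j r hr 3) = ∑ i, b i * ι (rtr ι (a i * (v (τ 3) 3 : L))) :=
      hab (v (τ 3) 3)
    rw [h2, Finset.mul_sum, Finset.mul_sum]
    refine Finset.sum_congr rfl fun i _ => ?_
    have h4 : ev (toYB j ι r hr (a i) (v (τ 0))) (ybI j ι r hr 0) = ev (v (τ 0)) (canI j r hr 0) :=
      rfl
    have h5 : ev (toYB j ι r hr (a i) (v (τ 1))) (ybI j ι r hr 1) = ev (v (τ 1)) (canI j r hr 1) :=
      rfl
    have h6 : ev (toYB j ι r hr (a i) (v (τ 2))) (ybI j ι r hr 2) = ev (v (τ 2)) (canI j r hr 2) :=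
      rfl
    have h7 : ev (toYB j ι r hr (a i) (v (τ 3))) (ybI j ι r hr 3) =
      ι (rtr ι (a i * (v (τ 3) 3 : L))) := rfl
    rw [h4, h5, h6, h7]
    ring
  rw [h1]
  exact Submodule.sum_mem _ fun i _ => Submodule.smul_mem _ _
    (LSp.pull (isHom_toYB j ι r hr h3 (a i)) h0)

/-- Half systems with one common element. -/
theorem mem_of_inter {S T : Set (L ≃ₐ[ℚ] L)} (hS : IsHalf S) (hT : IsHalf T) {σ : L ≃ₐ[ℚ] L}
    (h : S ∩ T = {σ}) (τ : L ≃ₐ[ℚ] L) : τ ∈ T ↔ τ = σ ∨ (τ ∉ S ∧ τ ≠ cc L * σ) := by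
  have hσ : σ ∈ S ∩ T := by rw [h]; rfl
  have h1 : ∀ τ, τ ∈ S → τ ∈ T → τ = σ := fun τ h2 h3 => by
    have h4 : τ ∈ S ∩ T := ⟨h2, h3⟩
    rwa [h] at h4
  constructor
  · intro h2
    by_cases h3 : τ = σ
    · exact Or.inl h3
    · refine Or.inr ⟨fun h4 => h3 (h1 τ h4 h2), ?_⟩
      rintro rfl
      exact (hT σ).1 hσ.2 h2
  · rintro (rfl | ⟨h2, h3⟩)
    · exact hσ.2
    · by_contra h4
      have h5 : cc L * τ ∈ S := by
        by_contra h6
        exact h2 ((hS τ).2 h6)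
      have h6 : cc L * τ ∈ T := by
        by_contra h7
        exact h4 ((hT τ).2 h7)
      have h7 := h1 _ h5 h6
      exact h3 ((cc_mul_eq_iff σ τ).1 h7)

/-- Two pairs of complementary half systems. -/
theorem alg_pairs4 (r : Fin 4 → Set (L ≃ₐ[ℚ] L)) (inv : Fin 4 → Fin 4)
    (h1 : ∀ k, inv (inv k) = k) (h2 : ∀ k, inv k ≠ k) (h3 : ∀ k, r (inv k) = (r k)ᶜ) :
    Alg B j j' r := alg_pairs j 4 (Fin 4) (Fintype.card_fin 4) r inv h1 h2 h3

theorem alg_weilB1 (h3 : r 3 = kap B j ι) (hr : ∀ k, IsHalf (r k)) (h01 : r 0 ∩ r 1 = {1})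
    (h23 : r 2 ∩ r 3 = {cc L}) (hj' : j' ≠ ComplexEmbedding.conjugate j) : Alg B j j' r := by
  obtain ⟨σ', hσ'⟩ := comp_surjective j j'
  have hσc : σ' ≠ cc L := by
    rintro rfl
    apply hj'
    rw [← hσ']
    have h4 := comp_cc j (1 : L ≃ₐ[ℚ] L)
    rw [mul_one] at h4
    exact h4
  have h1 := mem_of_inter (hr 0) (hr 1) h01
  have h2 := mem_of_inter (hr 2) (hr 3) h23
  have hcc : cc L * cc L = 1 := cc_cc
  rw [mul_one] at h1
  rw [hcc] at h2
  have hm1 : (1 : L ≃ₐ[ℚ] L) ∈ r 0 := (show (1 : L ≃ₐ[ℚ] L) ∈ r 0 ∩ r 1 by rw [h01]; rfl).1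
  have hm2 : cc L ∈ r 2 := (show cc L ∈ r 2 ∩ r 3 by rw [h23]; rfl).1
  have hm1' : cc L ∉ r 0 := by
    have h4 := (hr 0 1).1 hm1
    rwa [mul_one] at h4
  have hm2' : (1 : L ≃ₐ[ℚ] L) ∉ r 2 := by
    have h4 := (hr 2 (cc L)).1 hm2
    rwa [hcc] at h4
  by_cases h02 : r 0 = (r 2)ᶜ
  · -- two pairs
    have h4 : ∀ τ, τ ∈ r 0 ↔ τ ∉ r 2 := fun τ => by rw [h02]; rfl
    have h5 : ∀ τ, τ ∈ r 1 ↔ τ ∉ r 3 := by
      intro τ
      rw [h1, h2]
      by_cases h6 : τ = 1
      · subst h6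
        simp [hm2', Ne.symm (cc_ne (L := L))]
      · by_cases h7 : τ = cc L
        · subst h7
          simp [hm1', cc_ne (L := L)]
        · have h8 := h4 τ
          tauto
    refine alg_pairs4 j r ![2, 3, 0, 1] (by decide) (by decide) fun k => ?_
    fin_cases k
    · ext τ
      have := h4 τ
      change τ ∈ r 2 ↔ ¬ τ ∈ r 0
      tauto
    · ext τ
      have := h5 τ
      change τ ∈ r 3 ↔ ¬ τ ∈ r 1
      tauto
    · ext τ
      have := h4 τ
      change τ ∈ r 0 ↔ ¬ τ ∈ r 2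
      tauto
    · ext τ
      have := h5 τ
      change τ ∈ r 1 ↔ ¬ τ ∈ r 3
      tauto
  by_cases h12 : r 1 = (r 2)ᶜ
  · have h4 : ∀ τ, τ ∈ r 1 ↔ τ ∉ r 2 := fun τ => by rw [h12]; rfl
    have h5 : ∀ τ, τ ∈ r 0 ↔ τ ∉ r 3 := by
      intro τ
      rw [h2]
      by_cases h6 : τ = 1
      · subst h6
        simp [hm1, Ne.symm (cc_ne (L := L))]
      · by_cases h7 : τ = cc L
        · subst h7
          simp [hm1']
        · have h8 := h4 τ
          rw [h1] at h8
          tauto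
    refine alg_pairs4 j r ![3, 2, 1, 0] (by decide) (by decide) fun k => ?_
    fin_cases k
    · ext τ
      have := h5 τ
      change τ ∈ r 3 ↔ ¬ τ ∈ r 0
      tauto
    · ext τ
      have := h4 τ
      change τ ∈ r 2 ↔ ¬ τ ∈ r 1
      tauto
    · ext τ
      have := h4 τ
      change τ ∈ r 1 ↔ ¬ τ ∈ r 2
      tauto
    · ext τ
      have := h5 τ
      change τ ∈ r 0 ↔ ¬ τ ∈ r 3
      tauto
  by_cases h0 : σ' ∈ r 0
  · exact alg_weilB0 j ι r hr h3 h01 h23 σ' hσ'.symm h0 h02 h12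
  · -- exchange the first two
    have h4 : σ' ∈ r 1 := (h1 σ').2 (Or.inr ⟨h0, hσc⟩)
    have h5 : Alg B j j' ![r 1, r 0, r 2, r 3] := by
      refine alg_weilB0 j ι _ ?_ h3 ?_ h23 σ' hσ'.symm h4 h12 h02
      · intro k
        fin_cases k
        · exact hr 1
        · exact hr 0
        · exact hr 2
        · exact hr 3
      · change r 1 ∩ r 0 = {1}
        rw [Set.inter_comm, h01]
    refine alg_reindex (Equiv.swap (0 : Fin 4) 1) h5 fun k => ?_
    fin_cases k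
    · rfl
    · rfl
    · rfl
    · rfl

variable (hj' : j' ≠ ComplexEmbedding.conjugate j)

include hj' in
theorem alg_weilB (h3 : r 3 = kap B j ι) (hr : ∀ k, IsHalf (r k)) (σ : L ≃ₐ[ℚ] L)
    (h01 : r 0 ∩ r 1 = {σ}) (h23 : r 2 ∩ r 3 = {cc L * σ}) : Alg B j j' r := by
  refine alg_tr σ (alg_weilB1 j (σ • ι) _ ?_ ?_ ?_ ?_ hj')
  rotate_left
  · intro k τ
    change τ * σ ∈ r k ↔ ¬ (cc L * τ * σ ∈ r k)
    rw [mul_assoc]
    exact hr k (τ * σ)
  · ext τ
    have h4 : τ * σ ∈ r 0 ∩ r 1 ↔ τ * σ = σ := by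
      rw [h01, Set.mem_singleton_iff]
    rw [Set.mem_singleton_iff]
    refine Iff.trans ?_ (h4.trans mul_eq_right)
    exact Iff.rfl
  · ext τ
    have h4 : τ * σ ∈ r 2 ∩ r 3 ↔ τ * σ = cc L * σ := by
      rw [h23, Set.mem_singleton_iff]
    rw [Set.mem_singleton_iff]
    refine Iff.trans ?_ (h4.trans (mul_left_inj σ))
    exact Iff.rfl
  · ext τ
    change τ * σ ∈ r 3 ↔ _
    rw [h3]
    exact Iff.rfl

end base

variable {j : L →+* ℂ} (hj' : j' ≠ ComplexEmbedding.conjugate j)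

include hj'

theorem alg_weil_aux (ι : B.E →+* L) (r : Fin 4 → Set (L ≃ₐ[ℚ] L))
    (hr : ∀ k, IsHalf (r k)) (σ : L ≃ₐ[ℚ] L) (h01 : r 0 ∩ r 1 = {σ})
    (h23 : r 2 ∩ r 3 = {cc L * σ}) (hσ : cc L * σ ∈ kap B j ι) : Alg B j j' r := by
  set κ := kap B j ι with hκ
  have hκh : IsHalf κ := isHalf_kap j ι
  have hσ' : σ ∉ κ := fun h => (hκh σ).1 h hσ
  set P := toggle σ κᶜ with hP
  have hPh : IsHalf P := hκh.compl.toggle σ
  have hne := cc_mul_ne σ
  have hP1 : P ∩ κ = {cc L * σ} := by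
    ext τ
    rw [Set.mem_inter_iff, hP, mem_toggle, Set.mem_singleton_iff, Set.mem_compl_iff]
    constructor
    · rintro ⟨h1 | ⟨-, rfl | rfl⟩, h2⟩
      · exact absurd h2 h1.1
      · exact absurd h2 hσ'
      · rfl
    · rintro rfl
      exact ⟨Or.inr ⟨fun h => h hσ, Or.inr rfl⟩, hσ⟩
  have hP2 : Pᶜ ∩ κᶜ = {cc L * (cc L * σ)} := by
    rw [cc_mul_cc_mul]
    ext τ
    rw [Set.mem_inter_iff, Set.mem_compl_iff, hP, mem_toggle, Set.mem_singleton_iff,
      Set.mem_compl_iff]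
    constructor
    · rintro ⟨h1, h2⟩
      by_contra h3
      apply h1
      left
      exact ⟨h2, h3, fun h4 => h2 (h4 ▸ hσ)⟩
    · rintro rfl
      refine ⟨?_, hσ'⟩
      rintro (⟨-, h2, -⟩ | ⟨h2, -⟩)
      · exact h2 rfl
      · exact h2 hσ'
  have hA : Alg B j j' ![r 0, r 1, P, κ] := by
    refine alg_weilB j ι _ hj' rfl ?_ σ h01 hP1
    intro k
    fin_cases k
    · exact hr 0
    · exact hr 1
    · exact hPh
    · exact hκh
  have hB : Alg B j j' ![r 2, r 3, Pᶜ, κᶜ] := by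
    refine alg_weilB j ((cc L : L →+* L).comp ι) _ hj' (kap_cc j ι).symm ?_ (cc L * σ) h23 hP2
    intro k
    fin_cases k
    · exact hr 2
    · exact hr 3
    · exact hPh.compl
    · exact hκh.compl
  have h1 : Alg B j j' (Sum.elim (Sum.elim r ![P, Pᶜ]) ![κ, κᶜ]) := by
    refine alg_reindex merge (alg_sum hA hB) ?_
    rintro (k | k) <;> fin_cases k <;> rfl
  refine alg_cancel j hr hPh (alg_cancel j ?_ hκh h1)
  rintro (k | k)
  · exact hr k
  · fin_cases k
    · exact hPh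
    · exact hPh.compl

theorem alg_weil (ι : B.E →+* L) (r : Fin 4 → Set (L ≃ₐ[ℚ] L))
    (hr : ∀ k, IsHalf (r k)) (σ : L ≃ₐ[ℚ] L) (h01 : r 0 ∩ r 1 = {σ})
    (h23 : r 2 ∩ r 3 = {cc L * σ}) : Alg B j j' r := by
  by_cases h : cc L * σ ∈ kap B j ι
  · exact alg_weil_aux hj' ι r hr σ h01 h23 h
  · refine alg_weil_aux hj' ((cc L : L →+* L).comp ι) r hr σ h01 h23 ?_
    rw [kap_cc]
    exact h

end

end Pool.Agent.N830.HC.K
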